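import Pool.Agent.H751R2.LHY.Defs

/-!
# Periodisation of a potential (task T9)
-/

open MeasureTheory UnitAddTorus
open scoped ComplexConjugate ENNReal

namespace Pool.Agent.H751R2.LHY

noncomputable section

section P
variable {v : (Fin 3 → ℝ) → ℝ}

/-- integer vector as a real vector -/
def h51zr (z : Fin 3 → ℤ) : Fin 3 → ℝ := fun a => (z a : ℝ)

/-- projection to the torus -/
def h51pr (x : Fin 3 → ℝ) : T3 := fun a => (x a : UnitAddCircle)

theorem h51pr_add (x : Fin 3 → ℝ) (z : Fin 3 → ℤ) : h51pr (x + h51zr z) = h51pr x := by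
  funext a
  simp [h51pr, h51zr]

theorem h51pr_eq {x x' : Fin 3 → ℝ} (h : h51pr x' = h51pr x) : ∃ z, x + h51zr z = x' := by
  have h1 : ∀ a, ∃ n : ℤ, x' a - x a = n := by
    intro a
    have h2 : ((x' a - x a : ℝ) : UnitAddCircle) = 0 := by
      have := congrFun h a
      simp only [h51pr] at this
      rw [AddCircle.coe_sub, this, sub_self]
    rw [AddCircle.coe_eq_zero_iff] at h2
    obtain ⟨n, hn⟩ := h2
    exact ⟨n, by rw [← hn]; simp⟩
  choose z hz using h1
  refine ⟨z, ?_⟩
  funext a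
  have := hz a
  simp only [Pi.add_apply, h51zr]
  linarith

theorem h51meas_pr : Measurable h51pr :=
  measurable_pi_lambda _ fun i => AddCircle.measurable_mk'.comp (measurable_pi_apply i)

/-- the representatives of a point of the torus -/
def h51equiv (x0 : Fin 3 → ℝ) :
    (Fin 3 → ℤ) ≃ {x : Fin 3 → ℝ // (fun a => (x a : UnitAddCircle)) = h51pr x0} :=
  Equiv.ofBijective (fun z => ⟨x0 + h51zr z, h51pr_add x0 z⟩) (by
    constructor
    · intro z z' h
      have h1 : x0 + h51zr z = x0 + h51zr z' := congrArg Subtype.val h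
      have h2 := add_left_cancel h1
      funext a
      have := congrFun h2 a
      simp only [h51zr] at this
      exact_mod_cast this
    · rintro ⟨x, hx⟩
      obtain ⟨z, hz⟩ := h51pr_eq (x := x0) (x' := x) hx
      exact ⟨z, Subtype.ext hz⟩)

theorem h51repr (x0 : Fin 3 → ℝ) (ℓ : ℝ) :
    perPot v ℓ (h51pr x0) = ∑' z : Fin 3 → ℤ, ENNReal.ofReal (v (ℓ • (x0 + h51zr z))) := by
  unfold perPot
  rw [← (h51equiv x0).tsum_eq]
  rfl

/-- a measurable choice of representatives -/
def h51sec (y : T3) : Fin 3 → ℝ := (measurableEquivPiIoc (fun _ : Fin 3 => (0 : ℝ)) y).1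

theorem h51sec_meas : Measurable h51sec :=
  measurable_subtype_coe.comp (measurableEquivPiIoc (fun _ : Fin 3 => (0 : ℝ))).measurable

theorem h51pr_sec (y : T3) : h51pr (h51sec y) = y := by
  have := (measurableEquivPiIoc (fun _ : Fin 3 => (0 : ℝ))).symm_apply_apply y
  rw [coe_symm_measurableEquivPiIoc_apply] at this
  exact this

theorem perPot_meas (hv : Measurable v) (ℓ : ℝ) : Measurable (perPot v ℓ) := by
  have h : perPot v ℓ = fun y => ∑' z : Fin 3 → ℤ,
      ENNReal.ofReal (v (ℓ • (h51sec y + h51zr z))) := by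
    funext y
    rw [← h51repr, h51pr_sec]
  rw [h]
  refine Measurable.tsum fun z => ?_
  exact (hv.comp ((h51sec_meas.add_const _).const_smul ℓ)).ennreal_ofReal

theorem perPot_even (he : ∀ x, v (-x) = v x) (ℓ : ℝ) (y : T3) :
    perPot v ℓ (-y) = perPot v ℓ y := by
  have h1 : -y = h51pr (-(h51sec y)) := by
    conv_lhs => rw [← h51pr_sec y]
    funext a
    simp [h51pr]
  rw [h1, h51repr]
  conv_rhs => rw [← h51pr_sec y, h51repr]
  rw [← (Equiv.neg (Fin 3 → ℤ)).tsum_eq]
  refine tsum_congr fun z => ?_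
  congr 1
  rw [← he]
  congr 1
  funext a
  simp [h51zr]
  ring

theorem perPot_lint (hv : Measurable v) {ℓ : ℝ} (hℓ : 0 < ℓ) (f : T3 → ℝ≥0∞)
    (hf : Measurable f) :
    ∫⁻ y, perPot v ℓ y * f y =
      ENNReal.ofReal (1 / ℓ ^ 3) * ∫⁻ x : Fin 3 → ℝ, ENNReal.ofReal (v x) *
        f (fun a => ((x a / ℓ : ℝ) : UnitAddCircle)) := by
  set G : (Fin 3 → ℝ) → ℝ≥0∞ := fun x => ENNReal.ofReal (v (ℓ • x)) * f (h51pr x) with hG
  have hGm : Measurable G := by
    refine Measurable.mul ?_ (hf.comp h51meas_pr)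
    exact (hv.comp (measurable_id.const_smul ℓ)).ennreal_ofReal
  set Bx : (Fin 3 → ℤ) → Set (Fin 3 → ℝ) := fun z =>
    {x | ∀ i, x i ∈ Set.Ioc (z i : ℝ) (z i + 1)} with hBx
  have hBm : ∀ z, MeasurableSet (Bx z) := fun z =>
    MeasurableSet.univ_pi' (fun i => measurableSet_Ioc)
  have h0 : ∫⁻ y, perPot v ℓ y * f y =
      ∫⁻ x in Bx 0, perPot v ℓ (h51pr x) * f (h51pr x) := by
    rw [lintegral_preimage (fun y => perPot v ℓ y * f y) (fun _ => (0 : ℝ))]
    simp only [hBx, Pi.zero_apply, Int.cast_zero]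
    rfl
  have h1 : ∀ x, perPot v ℓ (h51pr x) * f (h51pr x) = ∑' z : Fin 3 → ℤ, G (x + h51zr z) := by
    intro x
    rw [h51repr, ← ENNReal.tsum_mul_right]
    refine tsum_congr fun z => ?_
    simp only [hG, h51pr_add]
  rw [h0]
  simp_rw [h1]
  have hGz : ∀ z : Fin 3 → ℤ, Measurable (fun x => G (x + h51zr z)) := fun z =>
    hGm.comp (measurable_id.add_const _)
  rw [lintegral_tsum fun z => (hGz z).aemeasurable]
  have h2 : ∀ z : Fin 3 → ℤ, ∫⁻ x in Bx 0, G (x + h51zr z) = ∫⁻ x in Bx z, G x := by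
    intro z
    rw [← lintegral_indicator (hBm 0), ← lintegral_indicator (hBm z),
      ← lintegral_add_right_eq_self ((Bx z).indicator G) (h51zr z)]
    refine lintegral_congr fun x => ?_
    by_cases hx : x ∈ Bx 0
    · have hx' : x + h51zr z ∈ Bx z := by
        intro i
        have := hx i
        simp only [Pi.zero_apply, Int.cast_zero, zero_add, Set.mem_Ioc] at this
        simp only [Pi.add_apply, h51zr, Set.mem_Ioc]
        constructor <;> linarith [this.1, this.2]
      rw [Set.indicator_of_mem hx, Set.indicator_of_mem hx']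
    · have hx' : x + h51zr z ∉ Bx z := by
        intro h
        apply hx
        intro i
        have := h i
        simp only [Pi.add_apply, h51zr, Set.mem_Ioc] at this
        simp only [Pi.zero_apply, Int.cast_zero, zero_add, Set.mem_Ioc]
        constructor <;> linarith [this.1, this.2]
      rw [Set.indicator_of_notMem hx, Set.indicator_of_notMem hx']
  simp_rw [h2]
  have hdisj : Pairwise (Function.onFun Disjoint Bx) := by
    intro z z' hzz
    rw [Function.onFun, Set.disjoint_left]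
    intro x hx hx'
    apply hzz
    funext i
    have a1 := hx i
    have a2 := hx' i
    simp only [Set.mem_Ioc] at a1 a2
    have b1 : ((z i : ℝ)) < z' i + 1 := by linarith [a1.1, a2.2]
    have b2 : ((z' i : ℝ)) < z i + 1 := by linarith [a2.1, a1.2]
    have c1 : z i < z' i + 1 := by exact_mod_cast b1
    have c2 : z' i < z i + 1 := by exact_mod_cast b2
    omega
  have hunion : ⋃ z, Bx z = Set.univ := by
    rw [Set.eq_univ_iff_forall]
    intro x
    rw [Set.mem_iUnion]
    refine ⟨fun i => ⌈x i⌉ - 1, fun i => ?_⟩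
    simp only [Set.mem_Ioc]
    push_cast
    constructor
    · linarith [Int.ceil_lt_add_one (x i)]
    · linarith [Int.le_ceil (x i)]
  rw [← lintegral_iUnion hBm hdisj, hunion, Measure.restrict_univ]
  -- scaling
  set H : (Fin 3 → ℝ) → ℝ≥0∞ := fun x => ENNReal.ofReal (v x) *
        f (fun a => ((x a / ℓ : ℝ) : UnitAddCircle)) with hH
  have hHm : Measurable H := by
    refine Measurable.mul hv.ennreal_ofReal (hf.comp ?_)
    have h5 : Measurable (fun x : Fin 3 → ℝ => fun i => x i / ℓ) := by fun_prop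
    exact h51meas_pr.comp h5
  have h3 : ∀ x, G x = H (ℓ • x) := by
    intro x
    simp only [hG, hH]
    congr 2
    funext a
    simp only [h51pr, Pi.smul_apply, smul_eq_mul]
    rw [mul_div_cancel_left₀ _ hℓ.ne']
  simp_rw [h3]
  have h4 := Measure.map_addHaar_smul (volume : Measure (Fin 3 → ℝ)) hℓ.ne'
  rw [← lintegral_map hHm (measurable_const_smul ℓ), h4, lintegral_smul_measure]
  simp only [Module.finrank_fintype_fun_eq_card, Fintype.card_fin, smul_eq_mul]
  congr 2
  rw [abs_of_pos (by positivity)]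
  ring

theorem perPot_le {C r : ℝ} (hC : ∀ x, v x ≤ C) (hr : ∀ x, v x ≠ 0 → ∀ a, |x a| ≤ r)
    {ℓ : ℝ} (hℓ : 2 * r < ℓ) (hℓ0 : 0 < ℓ) (y : T3) : perPot v ℓ y ≤ ENNReal.ofReal C := by
  rw [← h51pr_sec y, h51repr]
  by_cases hz : ∃ z : Fin 3 → ℤ, v (ℓ • (h51sec y + h51zr z)) ≠ 0
  · obtain ⟨z, hz⟩ := hz
    rw [tsum_eq_single z]
    · exact ENNReal.ofReal_le_ofReal (hC _)
    · intro z' hz'
      by_contra hne
      have hz2 : v (ℓ • (h51sec y + h51zr z')) ≠ 0 := by
        intro h
        apply hne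
        rw [h, ENNReal.ofReal_zero]
      obtain ⟨a, ha⟩ := Function.ne_iff.mp hz'
      have h1 := hr _ hz a
      have h2 := hr _ hz2 a
      simp only [Pi.smul_apply, Pi.add_apply, smul_eq_mul, h51zr] at h1 h2
      have h3 : ℓ * |(z' a : ℝ) - z a| ≤ 2 * r := by
        have : ℓ * ((z' a : ℝ) - z a) =
            ℓ * (h51sec y a + z' a) - ℓ * (h51sec y a + z a) := by ring
        have h4 : |ℓ * ((z' a : ℝ) - z a)| ≤ 2 * r := by
          rw [this]
          calc _ ≤ |ℓ * (h51sec y a + z' a)| + |ℓ * (h51sec y a + z a)| := abs_sub _ _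
            _ ≤ 2 * r := by linarith
        rwa [abs_mul, abs_of_pos hℓ0] at h4
      have h5 : (1 : ℝ) ≤ |(z' a : ℝ) - z a| := by
        have : (1 : ℤ) ≤ |z' a - z a| := Int.one_le_abs (sub_ne_zero.mpr ha)
        exact_mod_cast this
      nlinarith
  · push Not at hz
    simp only [hz, ENNReal.ofReal_zero, tsum_zero]
    exact bot_le

end P

end

end Pool.Agent.H751R2.LHY
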