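import Pool.Agent.H751R2.LHY.Defs
import Pool.Agent.H506R2.LHY.Lattice

/-!
# Uniform lower bound of the two-body energy (task T11)
-/

open MeasureTheory UnitAddTorus
open scoped ComplexConjugate ENNReal

namespace Pool.Agent.H751R2.LHY

noncomputable section

theorem h51cs_cont (n : Mom) : Continuous (cs n) := by
  unfold cs
  exact Complex.continuous_re.comp (mFourier n).continuous

theorem h51cs_abs (n : Mom) (y : T3) : |cs n y| ≤ 1 := by
  unfold cs
  refine (Complex.abs_re_le_norm _).trans ?_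
  refine ((mFourier n).norm_coe_le_norm y).trans ?_
  rw [mFourier_norm]

theorem h51wf_cont (B0 : Finset Mom) (c : Mom → ℝ) : Continuous (wf B0 c) := by
  unfold wf
  exact continuous_finsetSum _ fun n _ => continuous_const.mul (h51cs_cont n)

/-- integrable times continuous -/
theorem h51int_mul {W : T3 → ℝ} (hW : Integrable W) {g : T3 → ℝ} (hg : Continuous g) :
    Integrable (fun y => W y * g y) := by
  obtain ⟨C, hC⟩ : ∃ C, ∀ y, ‖g y‖ ≤ C := by
    obtain ⟨C, hC⟩ := (isCompact_range hg.norm).bddAbove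
    exact ⟨C, fun y => hC ⟨y, rfl⟩⟩
  exact hW.mul_bdd (c := C) hg.aestronglyMeasurable (Filter.Eventually.of_forall hC)

theorem h51sq_pos {n : Mom} (hn : n ≠ 0) : 1 ≤ sq n := by
  obtain ⟨a, ha⟩ := Function.ne_iff.mp hn
  unfold sq
  have h1 : (1 : ℝ) ≤ (n a : ℝ) ^ 2 := by
    have : (1 : ℤ) ≤ (n a) ^ 2 := by
      have := Int.one_le_abs ha
      have h2 : (n a) ^ 2 = |n a| ^ 2 := (sq_abs _).symm
      rw [h2]
      nlinarith
    exact_mod_cast this
  exact h1.trans (Finset.single_le_sum (f := fun a => ((n a : ℝ)) ^ 2)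
    (fun i _ => sq_nonneg _) (Finset.mem_univ a))

/-- Bessel -/
theorem h51bessel {u : T3 → ℝ} (hu : Pot u) (hum : Measurable u) {U : ℝ} (hUb : ∀ y, u y ≤ U)
    (F : Finset Mom) : ∑ n ∈ F, (∫ y, u y * cs n y) ^ 2 ≤ U * ∫ y, u y := by
  have hmem : MemLp (fun y => (u y : ℂ)) 2 (volume : Measure T3) := by
    refine MemLp.of_bound (Complex.measurable_ofReal.comp hum).aestronglyMeasurable U ?_
    refine Filter.Eventually.of_forall fun y => ?_
    rw [Complex.norm_real, Real.norm_eq_abs, abs_of_nonneg (hu.nonneg y)]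
    exact hUb y
  have hs := hasSum_sq_mFourierCoeff hmem.toLp
  have hae : (hmem.toLp : T3 → ℂ) =ᵐ[volume] fun y => (u y : ℂ) := hmem.coeFn_toLp
  have h1 : ∀ n : Mom, (∫ y, u y * cs n y) ^ 2 ≤ ‖mFourierCoeff (hmem.toLp : T3 → ℂ) n‖ ^ 2 := by
    intro n
    have e1 : mFourierCoeff (hmem.toLp : T3 → ℂ) n = ∫ t, mFourier (-n) t * (u t : ℂ) := by
      unfold mFourierCoeff
      refine integral_congr_ae ?_
      filter_upwards [hae] with t ht
      rw [ht, smul_eq_mul]
    have hint : Integrable (fun t => mFourier (-n) t * (u t : ℂ)) := by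
      refine (hu.int.ofReal (𝕜 := ℂ)).bdd_mul (c := 1) (mFourier (-n)).continuous.aestronglyMeasurable ?_
      refine Filter.Eventually.of_forall fun y => ?_
      refine ((mFourier (-n)).norm_coe_le_norm y).trans ?_
      rw [mFourier_norm]
    have e2 : (∫ y, u y * cs n y) = (mFourierCoeff (hmem.toLp : T3 → ℂ) n).re := by
      rw [e1]
      have := integral_re hint
      simp only [RCLike.re_to_complex] at this
      rw [← this]
      refine integral_congr_ae (Filter.Eventually.of_forall fun y => ?_)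
      simp only [cs]
      rw [mFourier_neg, Complex.mul_re, Complex.conj_re, Complex.ofReal_re, Complex.ofReal_im]
      ring
    rw [e2]
    have := Complex.abs_re_le_norm (mFourierCoeff (hmem.toLp : T3 → ℂ) n)
    exact sq_le_sq' (by linarith [neg_abs_le (mFourierCoeff (hmem.toLp : T3 → ℂ) n).re])
      ((le_abs_self _).trans this)
  calc ∑ n ∈ F, (∫ y, u y * cs n y) ^ 2
      ≤ ∑ n ∈ F, ‖mFourierCoeff (hmem.toLp : T3 → ℂ) n‖ ^ 2 := Finset.sum_le_sum fun n _ => h1 n
    _ ≤ ∫ t, ‖(hmem.toLp : T3 → ℂ) t‖ ^ 2 := by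
        refine sum_le_hasSum F (fun n _ => by positivity) hs
    _ = ∫ t, (u t) ^ 2 := by
        refine integral_congr_ae ?_
        filter_upwards [hae] with t ht
        rw [ht, Complex.norm_real, Real.norm_eq_abs, sq_abs]
    _ ≤ ∫ t, U * u t := by
        refine integral_mono_of_nonneg (Filter.Eventually.of_forall fun t => sq_nonneg _)
          (hu.int.const_mul U) (Filter.Eventually.of_forall fun t => ?_)
        have := hu.nonneg t
        have := hUb t
        simp only
        nlinarith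
    _ = U * ∫ y, u y := integral_const_mul _ _

/-- the Dirichlet-type sum -/
theorem h51D {u : T3 → ℝ} (hu : Pot u) (hum : Measurable u) {U A τ ℓ : ℝ}
    (hτ : 0 < τ) (hℓ : 1 ≤ ℓ) (hA : 0 < A) (hUb : ∀ y, u y ≤ U) (huI : ∫ y, u y = A / ℓ ^ 3)
    {B0 : Finset Mom} (hB0 : Sym B0) :
    ∑ n ∈ B0, (∫ y, u y * cs n y) ^ 2 / (2 * (τ * (2 * Real.pi / ℓ) ^ 2 * sq n)) ≤
      (7 * A ^ 2 + U * A) / τ / ℓ ^ 3 := by
  have hℓ0 : 0 < ℓ := by linarith
  have hU : 0 ≤ U := (hu.nonneg 0).trans (hUb 0)
  set R : ℕ := ⌈ℓ⌉₊ with hR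
  have hR1 : ℓ ≤ R := Nat.le_ceil ℓ
  have hR2 : (R : ℝ) ≤ 2 * ℓ := by
    have := Nat.ceil_lt_add_one hℓ0.le
    rw [← hR] at this
    linarith
  have hpi : (3 : ℝ) < Real.pi := Real.pi_gt_three
  have hpi2 : (9 : ℝ) < Real.pi ^ 2 := by nlinarith
  classical
  rw [← Finset.sum_filter_add_sum_filter_not B0 (fun n => n ∈ boxM R)]
  have hlow : ∑ n ∈ B0.filter (fun n => n ∈ boxM R),
      (∫ y, u y * cs n y) ^ 2 / (2 * (τ * (2 * Real.pi / ℓ) ^ 2 * sq n)) ≤
      A ^ 2 / τ / ℓ ^ 3 := by
    have h1 : ∀ n : Mom, (∫ y, u y * cs n y) ^ 2 ≤ (A / ℓ ^ 3) ^ 2 := by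
      intro n
      have : |∫ y, u y * cs n y| ≤ A / ℓ ^ 3 := by
        rw [← huI]
        calc |∫ y, u y * cs n y| ≤ ∫ y, |u y * cs n y| := abs_integral_le_integral_abs
          _ ≤ ∫ y, u y := by
              refine integral_mono_of_nonneg (Filter.Eventually.of_forall fun t => abs_nonneg _)
                hu.int (Filter.Eventually.of_forall fun t => ?_)
              simp only
              rw [abs_mul, abs_of_nonneg (hu.nonneg t)]
              exact mul_le_of_le_one_right (hu.nonneg t) (h51cs_abs n t)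
      rw [← sq_abs]
      exact pow_le_pow_left₀ (abs_nonneg _) this 2
    calc ∑ n ∈ B0.filter (fun n => n ∈ boxM R),
          (∫ y, u y * cs n y) ^ 2 / (2 * (τ * (2 * Real.pi / ℓ) ^ 2 * sq n))
        ≤ ∑ n ∈ B0.filter (fun n => n ∈ boxM R),
          ((A / ℓ ^ 3) ^ 2 / (2 * (τ * (2 * Real.pi / ℓ) ^ 2))) * (1 / sq n) := by
          refine Finset.sum_le_sum fun n hn => ?_
          have hn0 : n ≠ 0 := by
            rintro rfl
            exact hB0.zero (Finset.mem_filter.mp hn).1
          have hs := h51sq_pos hn0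
          have hs0 : 0 < sq n := by linarith
          rw [div_mul_div_comm, mul_one]
          rw [show 2 * (τ * (2 * Real.pi / ℓ) ^ 2) * sq n =
            2 * (τ * (2 * Real.pi / ℓ) ^ 2 * sq n) by ring]
          exact div_le_div_of_nonneg_right (h1 n) (by positivity)
      _ = ((A / ℓ ^ 3) ^ 2 / (2 * (τ * (2 * Real.pi / ℓ) ^ 2))) *
          ∑ n ∈ B0.filter (fun n => n ∈ boxM R), 1 / sq n := by rw [Finset.mul_sum]
      _ ≤ ((A / ℓ ^ 3) ^ 2 / (2 * (τ * (2 * Real.pi / ℓ) ^ 2))) * (26 * R) := by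
          refine mul_le_mul_of_nonneg_left (low_sum R _ ?_) (by positivity)
          intro n hn
          rw [Finset.mem_filter] at hn
          rw [Finset.mem_erase]
          refine ⟨?_, hn.2⟩
          rintro rfl
          exact hB0.zero hn.1
      _ ≤ ((A / ℓ ^ 3) ^ 2 / (2 * (τ * (2 * Real.pi / ℓ) ^ 2))) * (26 * (2 * ℓ)) := by
          refine mul_le_mul_of_nonneg_left (by linarith) (by positivity)
      _ = (A ^ 2 / τ / ℓ ^ 3) * (52 / (8 * Real.pi ^ 2)) := by
          field_simp
          ring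
      _ ≤ (A ^ 2 / τ / ℓ ^ 3) * 1 := by
          refine mul_le_mul_of_nonneg_left ?_ (by positivity)
          rw [div_le_one (by positivity)]
          linarith
      _ = A ^ 2 / τ / ℓ ^ 3 := mul_one _
  have hhigh : ∑ n ∈ B0.filter (fun n => ¬ n ∈ boxM R),
      (∫ y, u y * cs n y) ^ 2 / (2 * (τ * (2 * Real.pi / ℓ) ^ 2 * sq n)) ≤
      U * A / τ / ℓ ^ 3 := by
    calc ∑ n ∈ B0.filter (fun n => ¬ n ∈ boxM R),
          (∫ y, u y * cs n y) ^ 2 / (2 * (τ * (2 * Real.pi / ℓ) ^ 2 * sq n))
        ≤ ∑ n ∈ B0.filter (fun n => ¬ n ∈ boxM R), (1 / τ) * (∫ y, u y * cs n y) ^ 2 := by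
          refine Finset.sum_le_sum fun n hn => ?_
          rw [Finset.mem_filter] at hn
          have hsq : ℓ ^ 2 ≤ sq n := by
            have : ∃ a, n a ∉ Finset.Icc (-(R : ℤ)) R := by
              by_contra h
              push Not at h
              exact hn.2 (Fintype.mem_piFinset.mpr h)
            obtain ⟨a, ha⟩ := this
            have h2 : (R : ℤ) < |n a| := by
              rw [Finset.mem_Icc, not_and_or] at ha
              rw [lt_abs]
              rcases ha with h | h
              · right; omega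
              · left; omega
            have h3 : (R : ℝ) < |(n a : ℝ)| := by exact_mod_cast h2
            have h4 : ℓ ^ 2 ≤ (n a : ℝ) ^ 2 := by
              rw [← sq_abs (n a : ℝ)]
              exact pow_le_pow_left₀ hℓ0.le (by linarith) 2
            refine h4.trans ?_
            unfold sq
            exact Finset.single_le_sum (f := fun a => ((n a : ℝ)) ^ 2)
              (fun i _ => sq_nonneg _) (Finset.mem_univ a)
          have hden : τ ≤ 2 * (τ * (2 * Real.pi / ℓ) ^ 2 * sq n) := by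
            have : 1 ≤ 2 * ((2 * Real.pi / ℓ) ^ 2 * sq n) := by
              have e : (2 * Real.pi / ℓ) ^ 2 * ℓ ^ 2 = 4 * Real.pi ^ 2 := by
                field_simp
                ring
              have := mul_le_mul_of_nonneg_left hsq (sq_nonneg (2 * Real.pi / ℓ))
              rw [e] at this
              linarith
            calc τ = τ * 1 := (mul_one _).symm
              _ ≤ τ * (2 * ((2 * Real.pi / ℓ) ^ 2 * sq n)) := mul_le_mul_of_nonneg_left this hτ.le
              _ = _ := by ring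
          rw [div_eq_mul_inv, mul_comm (1 / τ), one_div]
          refine mul_le_mul_of_nonneg_left ?_ (sq_nonneg _)
          exact inv_anti₀ hτ hden
      _ = (1 / τ) * ∑ n ∈ B0.filter (fun n => ¬ n ∈ boxM R), (∫ y, u y * cs n y) ^ 2 := by
          rw [Finset.mul_sum]
      _ ≤ (1 / τ) * (U * ∫ y, u y) := by
          refine mul_le_mul_of_nonneg_left (h51bessel hu hum hUb _) (by positivity)
      _ = U * A / τ / ℓ ^ 3 := by
          rw [huI]
          field_simp
  calc _ ≤ A ^ 2 / τ / ℓ ^ 3 + U * A / τ / ℓ ^ 3 := add_le_add hlow hhigh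
    _ ≤ 7 * A ^ 2 / τ / ℓ ^ 3 + U * A / τ / ℓ ^ 3 := by
        refine add_le_add ?_ le_rfl
        refine div_le_div_of_nonneg_right (div_le_div_of_nonneg_right ?_ hτ.le) (by positivity)
        nlinarith [sq_nonneg A]
    _ = _ := by ring

/-- abstract lower bound: `u ≤ W` bounded by `U`, side length `ℓ`,  `q = τ (2π/ℓ)²` -/
theorem Q_lower {W u : T3 → ℝ} (hW : Pot W) (hu : Pot u) (hum : Measurable u)
    (huW : ∀ y, u y ≤ W y) {U A τ ℓ : ℝ}
    (hτ : 0 < τ) (hℓ : 1 ≤ ℓ) (hA : 0 < A) (hUb : ∀ y, u y ≤ U) (huI : ∫ y, u y = A / ℓ ^ 3)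
    {μ : ℝ} (hμ : 0 ≤ μ) {B0 : Finset Mom} (hB0 : Sym B0) (c : Mom → ℝ) :
    (A ^ 2 / (A + (7 * A ^ 2 + U * A) / τ)) / ℓ ^ 3 ≤ Qf W (τ * (2 * Real.pi / ℓ) ^ 2) μ B0 c := by
  have hℓ0 : 0 < ℓ := by linarith
  have hU : 0 ≤ U := (hu.nonneg 0).trans (hUb 0)
  set q : ℝ := τ * (2 * Real.pi / ℓ) ^ 2 with hq
  have hq0 : 0 < q := by
    have := Real.pi_pos
    positivity
  set w : T3 → ℝ := wf B0 c with hw
  have hwc : Continuous w := h51wf_cont B0 c
  set a : ℝ := A / ℓ ^ 3 with ha
  have ha0 : 0 < a := by positivity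
  set D : ℝ := (7 * A ^ 2 + U * A) / τ / ℓ ^ 3 with hD
  have hD0 : 0 < D := by positivity
  set X : ℝ := ∫ y, u y * (1 - w y) with hX
  set Y : ℝ := ∑ n ∈ B0, c n * ∫ y, u y * cs n y with hY
  have hXY : X + Y = a := by
    rw [← huI, hX, hY]
    have e1 : ∀ n ∈ B0, c n * ∫ y, u y * cs n y = ∫ y, u y * (c n * cs n y) := by
      intro n _
      rw [← integral_const_mul]
      refine integral_congr_ae (Filter.Eventually.of_forall fun y => ?_)
      simp only
      ring
    rw [Finset.sum_congr rfl e1, ← integral_finsetSum]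
    · rw [← integral_add]
      · refine integral_congr_ae (Filter.Eventually.of_forall fun y => ?_)
        simp only [hw, wf]
        rw [← Finset.mul_sum]
        ring
      · exact h51int_mul hu.int (continuous_const.sub hwc)
      · exact integrable_finsetSum _ fun n _ =>
          h51int_mul hu.int (continuous_const.mul (h51cs_cont n))
    · intro n _
      exact h51int_mul hu.int (continuous_const.mul (h51cs_cont n))
  set T : ℝ := ∑ n ∈ B0, 2 * (q * sq n) * c n ^ 2 with hT
  -- Cauchy-Schwarz for the sum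
  have hsq : ∀ n ∈ B0, 0 < sq n := by
    intro n hn
    have hn0 : n ≠ 0 := by
      rintro rfl
      exact hB0.zero hn
    linarith [h51sq_pos hn0]
  have hT0 : 0 ≤ T := Finset.sum_nonneg fun n hn => by
    have := hsq n hn
    positivity
  have hYT : Y ^ 2 ≤ D * T := by
    have h1 : Y ^ 2 ≤ (∑ n ∈ B0, (∫ y, u y * cs n y) ^ 2 / (2 * (q * sq n))) * T := by
      rw [hY, hT]
      have := Finset.sum_mul_sq_le_sq_mul_sq B0
        (fun n => (∫ y, u y * cs n y) / Real.sqrt (2 * (q * sq n)))
        (fun n => Real.sqrt (2 * (q * sq n)) * c n)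
      refine le_trans (le_of_eq ?_) (this.trans (le_of_eq ?_))
      · congr 1
        refine Finset.sum_congr rfl fun n hn => ?_
        have := hsq n hn
        have h2 : Real.sqrt (2 * (q * sq n)) ≠ 0 := (Real.sqrt_pos.mpr (by positivity)).ne'
        field_simp
      · congr 1
        · refine Finset.sum_congr rfl fun n hn => ?_
          have := hsq n hn
          rw [div_pow, Real.sq_sqrt (by positivity)]
        · refine Finset.sum_congr rfl fun n hn => ?_
          have := hsq n hn
          rw [mul_pow, Real.sq_sqrt (by positivity)]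
    refine h1.trans (mul_le_mul_of_nonneg_right ?_ hT0)
    exact h51D hu hum hτ hℓ hA hUb huI hB0
  -- Cauchy-Schwarz for the integral
  have hCS : X ^ 2 / a ≤ ∫ y, u y * (1 - w y) ^ 2 := by
    have h1 : 0 ≤ ∫ y, u y * ((1 - w y) - X / a) ^ 2 :=
      integral_nonneg fun y => mul_nonneg (hu.nonneg y) (sq_nonneg _)
    have h2 : ∫ y, u y * ((1 - w y) - X / a) ^ 2 =
        (∫ y, u y * (1 - w y) ^ 2) - (2 * (X / a)) * X + (X / a) ^ 2 * a := by
      have e : (fun y => u y * ((1 - w y) - X / a) ^ 2) = fun y =>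
          (u y * (1 - w y) ^ 2 - (2 * (X / a)) * (u y * (1 - w y))) + (X / a) ^ 2 * u y := by
        funext y
        ring
      have i1 : Integrable (fun y => u y * (1 - w y) ^ 2) :=
        h51int_mul hu.int ((continuous_const.sub hwc).pow 2)
      have i2 : Integrable (fun y => (2 * (X / a)) * (u y * (1 - w y))) :=
        (h51int_mul hu.int (continuous_const.sub hwc)).const_mul _
      have i3 : Integrable (fun y => (X / a) ^ 2 * u y) := hu.int.const_mul _
      have i4 : Integrable (fun y => u y * (1 - w y) ^ 2 - (2 * (X / a)) * (u y * (1 - w y))) :=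
        i1.sub i2
      rw [e, integral_add i4 i3, integral_sub i1 i2, integral_const_mul,
        integral_const_mul, huI]
    rw [h2] at h1
    have h3 : (2 * (X / a)) * X - (X / a) ^ 2 * a = X ^ 2 / a := by
      field_simp
      ring
    linarith
  have hWu : ∫ y, u y * (1 - w y) ^ 2 ≤ ∫ y, W y * (1 - w y) ^ 2 := by
    refine integral_mono (h51int_mul hu.int ((continuous_const.sub hwc).pow 2))
      (h51int_mul hW.int ((continuous_const.sub hwc).pow 2)) fun y => ?_
    exact mul_le_mul_of_nonneg_right (huW y) (sq_nonneg _)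
  have hQT : T ≤ ∑ n ∈ B0, (2 * (q * sq n) + 2 * μ) * c n ^ 2 := by
    refine Finset.sum_le_sum fun n _ => ?_
    refine mul_le_mul_of_nonneg_right ?_ (sq_nonneg _)
    linarith
  have hYD : Y ^ 2 / D ≤ T := by
    rw [div_le_iff₀ hD0]
    linarith
  have hmain : a ^ 2 / (a + D) ≤ X ^ 2 / a + Y ^ 2 / D := by
    rw [← hXY, div_add_div _ _ (by rw [hXY]; exact ha0.ne') hD0.ne',
      div_le_div_iff₀ (by rw [hXY]; positivity) (by rw [hXY]; positivity)]
    have : 0 ≤ (X * D - (X + Y) * Y) ^ 2 := sq_nonneg _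
    have hpos : 0 < X + Y := by rw [hXY]; exact ha0
    nlinarith [this]
  have hfin : (A ^ 2 / (A + (7 * A ^ 2 + U * A) / τ)) / ℓ ^ 3 = a ^ 2 / (a + D) := by
    have h1 : 0 < A + (7 * A ^ 2 + U * A) / τ := by positivity
    have h2 : a + D = (A + (7 * A ^ 2 + U * A) / τ) / ℓ ^ 3 := by
      rw [ha, hD]; ring
    rw [h2, ha]
    field_simp
  rw [hfin]
  unfold Qf
  linarith

end

end Pool.Agent.H751R2.LHY
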